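import Pool.Agent.helper47.CL.SpecD

/-!
# Row BF of project CL (MP_d9d598_co), part D
-/

set_option autoImplicit false

namespace Pool.Agent.helper41.CL

open Finset

lemma BF_other {α : Type} [DecidableEq α] {e : Finset α} {p : α} (hp : p ∈ e) (h : #e = 2) :
    ∃ a, a ≠ p ∧ e = {p, a} := by
  obtain ⟨u, v, huv, rfl⟩ := card_eq_two.mp h
  rw [mem_insert, mem_singleton] at hp
  rcases hp with hp | hp
  · exact ⟨v, by rw [hp]; exact huv.symm, by rw [hp]⟩
  · exact ⟨u, by rw [hp]; exact huv, by rw [hp]; exact pair_comm u v⟩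

lemma BF_kt {α : Type} [DecidableEq α] {E : Finset (Finset α)} {x y p : α} (h : Kt E x y) (hp : 2 ≤ #(inc E p)) :
    p ≠ x ∧ p ≠ y := by
  have key : (x = p ∨ y = p) → False := by
    intro hh
    have h1 : inc E p ⊆ {({x, y} : Finset α)} := by
      intro e he
      unfold inc at he
      have he' := mem_filter.mp he
      rw [mem_singleton]
      apply h.2.2 e he'.1
      rcases hh with hh | hh
      · exact Or.inl (by rw [hh]; exact he'.2)
      · exact Or.inr (by rw [hh]; exact he'.2)
    have h2 := card_le_card h1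
    rw [card_singleton] at h2
    omega
  exact ⟨fun e => key (Or.inl e.symm), fun e => key (Or.inr e.symm)⟩

lemma BF_mem {α : Type} [DecidableEq α] {V : Finset α} {E : Finset (Finset α)} {p : α} (hG : Gr V E) (hp : 1 ≤ #(inc E p)) : p ∈ V := by
  have h : (inc E p).Nonempty := by
    rw [← card_pos]; omega
  obtain ⟨e, he⟩ := h
  unfold inc at he
  have he' := mem_filter.mp he
  exact (hG e he'.1).1 he'.2

/-- At least six members of `E` meet a set of four elements of degree at least three. -/
lemma BF_six {α : Type} [DecidableEq α] {V : Finset α} {E : Finset (Finset α)} {S : Finset α} (hG : Gr V E) (hS4 : #S = 4)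
    (h6 : ∀ s ∈ S, 3 ≤ #(inc E s)) : #(av E S) + 6 ≤ #E := by
  have hsum3 : 12 ≤ ∑ s ∈ S, #(inc E s) := by
    have h7 := Finset.card_nsmul_le_sum S (fun x => #(inc E x)) 3 h6
    rw [hS4] at h7
    simpa using h7
  have hdc : ∑ s ∈ S, #(inc E s) = ∑ e ∈ E, #(S.filter fun s => s ∈ e) :=
    Finset.sum_card_bipartiteAbove_eq_sum_card_bipartiteBelow (s := S) (t := E) (fun (s : α) (e : Finset α) => s ∈ e)
  have hle : ∑ e ∈ E, #(S.filter fun s => s ∈ e) ≤ ∑ e ∈ E, (if Disjoint e S then 0 else 2) := by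
    apply sum_le_sum
    intro e heE
    split_ifs with hd
    · rw [Nat.le_zero, card_eq_zero, filter_eq_empty_iff]
      intro s hs hse
      exact (disjoint_left.mp hd) hse hs
    · calc #(S.filter fun s => s ∈ e) ≤ #e := card_le_card (fun s hs => (mem_filter.mp hs).2)
        _ ≤ 2 := (hG e heE).2.le
  have hcount : ∑ e ∈ E, (if Disjoint e S then 0 else 2) = 2 * #(E.filter fun e => ¬ Disjoint e S) := by
    rw [sum_ite]
    simp [mul_comm]
  have hsplit : #(E.filter fun e => Disjoint e S) + #(E.filter fun e => ¬ Disjoint e S) = #E :=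
    Finset.card_filter_add_card_filter_not (fun e => Disjoint e S)
  have hav : #(av E S) = #(E.filter fun e => Disjoint e S) := rfl
  omega

theorem BF (h1 : ZD_stmt) (h2 : ZK_stmt) (h3 : ZP_stmt) (h4 : SD_stmt) : BF_stmt := by
  intro N hA hC α _ V E q hG hV hVN hE hq hF
  obtain ⟨⟨p, hp⟩, hF2⟩ := hF
  have hpV : p ∈ V := BF_mem hG (by omega)
  have hK : ∃ x y, Kt E x y := by
    by_contra hno
    have h5 : ∀ x ∈ V, 3 ≤ #(inc E x) := by
      intro x hx
      rcases hF2 x hx with h | ⟨y, hy⟩
      · exact h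
      · exact absurd ⟨x, y, hy⟩ hno
    have hs := h4 α V E hG
    have h6 : #V * 3 ≤ ∑ x ∈ V, #(inc E x) := by
      have h7 := Finset.card_nsmul_le_sum V (fun x => #(inc E x)) 3 h5
      simpa using h7
    omega
  by_cases h5 : ∃ p, 4 ≤ #(inc E p)
  · obtain ⟨p, hp4⟩ := h5
    have hpV : p ∈ V := BF_mem hG (by omega)
    obtain ⟨x, y, hxy⟩ := hK
    obtain ⟨hG1, hV1, hE1, hI1⟩ := h3 α V E p hG hpV
    have hne := BF_kt hxy (p := p) (by omega)
    have hxy1 : Kt (av E {p}) x y := by
      refine ⟨hxy.1, ?_, ?_⟩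
      · unfold av
        refine mem_filter.mpr ⟨hxy.2.1, ?_⟩
        rw [disjoint_singleton_right, mem_insert, mem_singleton]
        rintro (h | h)
        · exact hne.1 h
        · exact hne.2 h
      · intro e he
        unfold av at he
        exact hxy.2.2 e (mem_filter.mp he).1
    obtain ⟨hG2, hV2, hE2, hI2⟩ := h2 α (V.erase p) (av E {p}) x y hG1 hxy1
    obtain ⟨m, rfl⟩ : ∃ m, q = m + 2 := ⟨q - 2, by omega⟩
    have i1 := hI1 (m + 2 + 1)
    have i2 := hI2 (m + 2)
    have c1 := hC α _ _ (m + 1) (m + 2) hG2 (by omega) (by omega) (by omega) (by omega)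
    have c2 := hA α _ _ (m + 2) m hG2 (by omega) (by omega) (by omega) (by omega)
    have e1 : m + 1 + 1 = m + 2 := rfl
    rw [e1] at c1
    generalize #(ind (V.erase p \ {x, y}) (av (av E {p}) {x, y}) (m + 2)) = X at *
    generalize #(ind (V.erase p \ {x, y}) (av (av E {p}) {x, y}) (m + 2 + 1)) = Y at *
    have hB : 0 < 2 ^ m := by positivity
    have c1' : 4 * 3 ^ m ≤ X := by
      refine Nat.le_of_mul_le_mul_left (c := 36 * 2 ^ m) ?_ (by positivity)
      have : 36 * 2 ^ m * (4 * 3 ^ m) = 8 * 3 ^ (m + 2) * 2 ^ (m + 1) := by ring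
      rw [this]
      refine c1.trans (le_of_eq ?_)
      ring
    have c2' : 4 * 3 ^ m ≤ 3 * Y := by
      refine Nat.le_of_mul_le_mul_left (c := 2 ^ m) ?_ hB
      have : 2 ^ m * (4 * 3 ^ m) = 3 ^ m * 2 ^ (m + 2) := by ring
      rw [this]
      refine c2.trans (le_of_eq ?_)
      ring
    have e3 : 3 ^ (m + 2) = 9 * 3 ^ m := by ring
    rw [e3]
    omega
  · have h5' : ∀ p, #(inc E p) ≤ 3 := by
      intro p
      by_contra h
      exact h5 ⟨p, by omega⟩
    have hp3 : #(inc E p) = 3 := by
      have := h5' p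
      omega
    obtain ⟨e1, e2, e3, h12, h13, h23, he⟩ := card_eq_three.mp hp3
    have hm : ∀ e ∈ inc E p, e ∈ E ∧ p ∈ e := fun e he => by
      unfold inc at he
      exact mem_filter.mp he
    have m1 := hm e1 (by rw [he]; simp)
    have m2 := hm e2 (by rw [he]; simp)
    have m3 := hm e3 (by rw [he]; simp)
    obtain ⟨a, ha, rfl⟩ := BF_other m1.2 (hG _ m1.1).2
    obtain ⟨b, hb, rfl⟩ := BF_other m2.2 (hG _ m2.1).2
    obtain ⟨c, hc, rfl⟩ := BF_other m3.2 (hG _ m3.1).2
    have hab : a ≠ b := fun h => h12 (by rw [h])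
    have hac : a ≠ c := fun h => h13 (by rw [h])
    have hbc : b ≠ c := fun h => h23 (by rw [h])
    have hdeg : ∀ s, {p, s} ∈ E → 3 ≤ #(inc E s) := by
      intro s hsE
      have hsV : s ∈ V := (hG _ hsE).1 (by simp)
      rcases hF2 s hsV with h | ⟨y, hy⟩
      · exact h
      · exfalso
        have h6 := hy.2.2 _ hsE (Or.inl (by simp))
        have h7 : p ∈ ({s, y} : Finset α) := by rw [← h6]; simp
        have h8 := BF_kt hy (p := p) (by omega)
        rw [mem_insert, mem_singleton] at h7
        rcases h7 with h7 | h7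
        · exact h8.1 h7
        · exact h8.2 h7
    have hSV : ({p, a, b, c} : Finset α) ⊆ V := by
      intro s hs
      simp only [mem_insert, mem_singleton] at hs
      rcases hs with hs | hs | hs | hs
      · rw [hs]; exact hpV
      · rw [hs]; exact (hG _ m1.1).1 (by simp)
      · rw [hs]; exact (hG _ m2.1).1 (by simp)
      · rw [hs]; exact (hG _ m3.1).1 (by simp)
    have hS4 : #({p, a, b, c} : Finset α) = 4 := by
      rw [card_insert_of_notMem, card_insert_of_notMem, card_insert_of_notMem, card_singleton]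
      · simpa using hbc
      · simp only [mem_insert, mem_singleton, not_or]
        exact ⟨hab, hac⟩
      · simp only [mem_insert, mem_singleton, not_or]
        exact ⟨ha.symm, hb.symm, hc.symm⟩
    have hSE : ∀ e ∈ E, p ∈ e → e ⊆ ({p, a, b, c} : Finset α) := by
      intro e heE hpe
      have h6 : e ∈ inc E p := by
        unfold inc
        exact mem_filter.mpr ⟨heE, hpe⟩
      rw [he] at h6
      simp only [mem_insert, mem_singleton] at h6
      intro s hs
      rcases h6 with h6 | h6 | h6
      all_goals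
        rw [h6] at hs
        simp only [mem_insert, mem_singleton] at hs ⊢
        tauto
    have hsix := BF_six (S := ({p, a, b, c} : Finset α)) hG hS4 (by
      intro s hs
      simp only [mem_insert, mem_singleton] at hs
      rcases hs with hs | hs | hs | hs
      · rw [hs]; exact hp
      · rw [hs]; exact hdeg a m1.1
      · rw [hs]; exact hdeg b m2.1
      · rw [hs]; exact hdeg c m3.1)
    have hD := h1 α V E p ({p, a, b, c} : Finset α) q hG (by simp) hSV hSE
    obtain ⟨hG1, hV1, hE1, -⟩ := h3 α V E p hG hpV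
    have hVS : #(V \ {p, a, b, c}) + 4 = #V := by
      have h6 := card_sdiff_add_card_eq_card hSV
      omega
    have hGS : Gr (V \ {p, a, b, c}) (av E {p, a, b, c}) := by
      intro e he
      unfold av at he
      have he' := mem_filter.mp he
      refine ⟨fun s hs => mem_sdiff.mpr ⟨(hG e he'.1).1 hs, fun h => (disjoint_left.mp he'.2) hs h⟩, (hG e he'.1).2⟩
    obtain ⟨m, rfl⟩ : ∃ m, q = m + 1 := ⟨q - 1, by omega⟩
    have c1 := hC α _ _ (m + 1) (m + 1) hG1 (by omega) (by omega) (by omega) (by omega)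
    have c2 := hC α _ _ m m hGS (by omega) (by omega) (by omega) (by omega)
    generalize #(ind (V.erase p) (av E {p}) (m + 1 + 1)) = X at *
    generalize #(ind (V \ {p, a, b, c}) (av E {p, a, b, c}) (m + 1)) = Y at *
    have hB : 0 < 2 ^ m := by positivity
    have c1' : 24 * 3 ^ m ≤ 9 * X := by
      refine Nat.le_of_mul_le_mul_left (c := 2 * 2 ^ m) ?_ (by positivity)
      have : 2 * 2 ^ m * (24 * 3 ^ m) = 8 * 3 ^ (m + 1) * 2 ^ (m + 1) := by ring
      rw [this]
      refine c1.trans (le_of_eq ?_)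
      ring
    have c2' : 8 * 3 ^ m ≤ 9 * Y := by
      refine Nat.le_of_mul_le_mul_left (c := 2 ^ m) ?_ hB
      have : 2 ^ m * (8 * 3 ^ m) = 8 * 3 ^ m * 2 ^ m := by ring
      rw [this]
      refine c2.trans (le_of_eq ?_)
      ring
    have e3 : 3 ^ (m + 1) = 3 * 3 ^ m := by ring
    rw [e3]
    omega

end Pool.Agent.helper41.CL
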