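import Pool.Agent.helper41.CL.SpecC

set_option autoImplicit false

namespace Pool.Agent.helper41.CL

open Finset

theorem DA (h1 : AZ_stmt) (h2 : SP_stmt) : DA_stmt := by
  intro α _ V E p hG hp hV
  have hle : #(inc E p) ≤ #E := card_filter_le _ _
  obtain ⟨e₀, he₀⟩ : (inc E p).Nonempty := card_pos.1 (by omega)
  have hpV : p ∈ V := by
    unfold inc at he₀
    rw [mem_filter] at he₀
    exact (hG e₀ he₀.1).1 he₀.2
  have hsum : #(inc E p) + #(E.filter fun e => p ∉ e) = #E := by
    unfold inc
    exact card_filter_add_card_filter_not (s := E) (fun e => p ∈ e)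
  have hG' : Gr (V.erase p) (E.filter fun e => p ∉ e) := by
    intro e he
    rw [mem_filter] at he
    refine ⟨fun x hx => mem_erase.2 ⟨?_, (hG e he.1).1 hx⟩, (hG e he.1).2⟩
    rintro rfl
    exact he.2 hx
  have hVe : #(V.erase p) = #V - 1 := card_erase_of_mem hpV
  have hAZ := h1 α (V.erase p) (E.filter fun e => p ∉ e) (#E - 3) hG' (by omega) (by omega)
  have hSP := h2 α V E p (#E - 3) hpV
  have hc : #E - 3 + 1 = #E - 2 := by omega
  rw [hc] at hSP
  have hpow : 2 ^ #E = 8 * 2 ^ (#E - 3) := by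
    have : #E = (#E - 3) + 3 := by omega
    conv_lhs => rw [this, pow_add]
    ring
  rw [hpow, hSP]
  omega

end Pool.Agent.helper41.CL
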